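import Pool.Agent.helper14.XG.Spec

/-!
# Row xg:LMG of MP_51d945_co (the main lemma, assembly)
-/

set_option autoImplicit false

namespace Pool.Agent.XG

open Finset Pool.Agent.XT

open Classical in
/-- the tuples with given ends -/
noncomputable def LMG_f {n : ℕ} (B : FS n) (Nr : Fin n → Fin n → Prop)
    (F : Fin n → Fin n → Finset (VV n)) (t t' : ℝ) (e : Fin n × Fin n) :
    Finset ((Fin 3 → Fin n) × (Fin 3 → Fin n) × (P8 → Fin n)) :=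
  (TG B Nr F t t').filter (fun q => q.1 2 = e.1 ∧ q.2.1 2 = e.2)

theorem LMG_sum {n : ℕ} (B : FS n) (Nr : Fin n → Fin n → Prop)
    (F : Fin n → Fin n → Finset (VV n)) (t t' : ℝ) :
    ((TG B Nr F t t').card : ℝ) = ∑ e : Fin n × Fin n, ((LMG_f B Nr F t t' e).card : ℝ) := by
  classical
  have h := Finset.card_eq_sum_card_fiberwise (s := TG B Nr F t t')
    (t := (Finset.univ : Finset (Fin n × Fin n)))
    (f := fun q => (q.1 2, q.2.1 2)) (fun _ _ => Finset.mem_coe.2 (Finset.mem_univ _))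
  rw [h]
  push_cast
  refine Finset.sum_congr rfl fun e _ => ?_
  congr 2
  unfold LMG_f
  refine Finset.filter_congr fun q _ => ?_
  rw [Prod.ext_iff]

theorem LMG_diag {n : ℕ} (B : FS n) (Nr : Fin n → Fin n → Prop)
    (F : Fin n → Fin n → Finset (VV n)) (t t' : ℝ) [DecidablePred fun e : Fin n × Fin n => e.1 = e.2] :
    ∑ e ∈ (Finset.univ : Finset (Fin n × Fin n)).filter (fun e => e.1 = e.2),
      ((LMG_f B Nr F t t' e).card : ℝ) ≤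
      (((TG B Nr F t t').filter (fun q => q.1 2 = q.2.1 2)).card : ℝ) := by
  classical
  have h : ∑ e ∈ (Finset.univ : Finset (Fin n × Fin n)).filter (fun e => e.1 = e.2),
      (LMG_f B Nr F t t' e).card ≤ ((TG B Nr F t t').filter (fun q => q.1 2 = q.2.1 2)).card := by
    rw [← Finset.card_biUnion]
    · refine Finset.card_le_card ?_
      intro q hq
      obtain ⟨e, he, hqe⟩ := Finset.mem_biUnion.1 hq
      obtain ⟨h1, h2, h3⟩ := Finset.mem_filter.1 hqe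
      refine Finset.mem_filter.2 ⟨h1, ?_⟩
      rw [h2, h3]
      exact (Finset.mem_filter.1 he).2
    · intro e _ e' _ hne
      refine Finset.disjoint_left.2 ?_
      intro q hq hq'
      obtain ⟨-, h2, h3⟩ := Finset.mem_filter.1 hq
      obtain ⟨-, h2', h3'⟩ := Finset.mem_filter.1 hq'
      exact hne (Prod.ext (h2.symm.trans h2') (h3.symm.trans h3'))
  exact_mod_cast h

theorem LMG (hLMA : LMA_stmt) (hUPW : UPW_stmt) (hNRB : NRB_stmt) (hARG : ARG_stmt) : LMG_stmt := by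
  classical
  intro κ hκ A hA
  obtain ⟨C0, C1, C2, c, hC1, hC12, hc, hL⟩ := hLMA κ hκ
  have hC2 : 1 ≤ C2 := hC1.trans hC12
  have hKK : (0 : ℝ) < (KK : ℝ) := by
    have : 0 < KK := by unfold KK; norm_num
    exact_mod_cast this
  set E : ℝ := (60020 * (KK : ℝ) ^ 3) ^ 2 with hE
  have hE0 : 0 < E := by positivity
  have q1 : 0 < 4 * E * C1 ^ 2 / c := by positivity
  have q2 : 0 < 288000 * (KK : ℝ) * E * C2 ^ 2 / c := by positivity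
  have q3 : 0 < 2 * A * E * C1 ^ 2 / c := by positivity
  obtain ⟨C3, hC3, hK⟩ := hARG (1 + 4 * E * C1 ^ 2 / c + 288000 * (KK : ℝ) * E * C2 ^ 2 / c +
    2 * A * E * C1 ^ 2 / c) (by linarith)
  refine ⟨max C0 C3, ?_⟩
  intro n D B Nr F hB hS hCn hDn
  have hn0 := hB.n0
  have hn : (0 : ℝ) < n := by exact_mod_cast hB.n0
  have hD : (0 : ℝ) < D := by exact_mod_cast hB.d0
  have hDn' : (D : ℝ) ^ 3 ≤ n := by exact_mod_cast hDn
  have hdg : Dg B D := ⟨hB.pu, hB.lu⟩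
  have hCn0 : C0 * (n : ℝ) ^ 8 ≤ (D : ℝ) ^ 25 :=
    le_trans (mul_le_mul_of_nonneg_right (le_max_left _ _) (by positivity)) hCn
  have hCn3 : C3 * (n : ℝ) ^ 8 ≤ (D : ℝ) ^ 25 :=
    le_trans (mul_le_mul_of_nonneg_right (le_max_right _ _) (by positivity)) hCn
  obtain ⟨-, -, -, k5, k6, k8⟩ := hK n D hn0 hCn3
  have k5' : 4 * E * C1 ^ 2 / c * (n : ℝ) ^ 5 ≤ (D : ℝ) ^ 18 :=
    le_trans (mul_le_mul_of_nonneg_right (by linarith) (by positivity)) k5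
  have k8' : 288000 * (KK : ℝ) * E * C2 ^ 2 / c * (n : ℝ) ^ 8 ≤ (D : ℝ) ^ 25 :=
    le_trans (mul_le_mul_of_nonneg_right (by linarith) (by positivity)) k8
  have k6' : 2 * A * E * C1 ^ 2 / c * (n : ℝ) ^ 6 ≤ (D : ℝ) ^ 19 :=
    le_trans (mul_le_mul_of_nonneg_right (by linarith) (by positivity)) k6
  have hT := hL n D B Nr F hB hS hCn0 hDn
  set t1 : ℝ := C1 * n / (D : ℝ) ^ 3 with ht1
  set t2 : ℝ := C2 * (n : ℝ) ^ 2 / (D : ℝ) ^ 6 with ht2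
  have h1t : 1 ≤ t1 := by
    rw [ht1, le_div_iff₀ (by positivity)]
    nlinarith
  have h12 : t1 ≤ t2 := by
    rw [ht1, ht2, div_le_div_iff₀ (by positivity) (by positivity)]
    calc C1 * n * (D : ℝ) ^ 6 = C1 * (n * (D : ℝ) ^ 3) * (D : ℝ) ^ 3 := by ring
      _ ≤ C2 * (n * n) * (D : ℝ) ^ 3 := by gcongr
      _ = C2 * (n : ℝ) ^ 2 * (D : ℝ) ^ 3 := by ring
  obtain ⟨u1, u2⟩ := hUPW n D B Nr F hS hdg t1 t2 h1t
  have hN := hNRB n D B Nr F hS hdg hB.d0 t1 t2 h1t h12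
  set T : ℝ := ((TG B Nr F t1 t2).card : ℝ) with hTd
  -- three parts
  set Dg1 := (Finset.univ : Finset (Fin n × Fin n)).filter (fun e => e.1 = e.2) with hDg1
  have hb : ∀ e, e ∉ Dg1 → e ∉ RobS B → ((LMG_f B Nr F t1 t2 e).card : ℝ) ≤
      6000 * (12 * (KK : ℝ) * (D : ℝ) ^ 3 * (60020 * (KK : ℝ) ^ 3 * t2) ^ 2) := by
    intro e he1 he2
    refine hN e.1 e.2 ?_ ?_
    · intro h
      exact he1 (Finset.mem_filter.2 ⟨Finset.mem_univ _, h⟩)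
    · intro h
      exact he2 (Finset.mem_filter.2 ⟨Finset.mem_univ _, h⟩)
  have hsplit : T ≤ n * (D : ℝ) ^ 4 * (60020 * (KK : ℝ) ^ 3 * t1) ^ 2 +
      ((RobS B).card : ℝ) * ((D : ℝ) ^ 4 * (60020 * (KK : ℝ) ^ 3 * t1) ^ 2) +
      (n : ℝ) ^ 2 * (6000 * (12 * (KK : ℝ) * (D : ℝ) ^ 3 * (60020 * (KK : ℝ) ^ 3 * t2) ^ 2)) := by
    have e1 : T ≤ ∑ e ∈ Dg1, ((LMG_f B Nr F t1 t2 e).card : ℝ) +
        ∑ e ∈ RobS B, ((LMG_f B Nr F t1 t2 e).card : ℝ) +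
        ∑ e ∈ (Dg1 ∪ RobS B)ᶜ, ((LMG_f B Nr F t1 t2 e).card : ℝ) := by
      rw [hTd, LMG_sum, ← Finset.sum_add_sum_compl (Dg1 ∪ RobS B)]
      have h2 : ∑ e ∈ Dg1 ∪ RobS B, ((LMG_f B Nr F t1 t2 e).card : ℝ) ≤
          ∑ e ∈ Dg1, ((LMG_f B Nr F t1 t2 e).card : ℝ) +
          ∑ e ∈ RobS B, ((LMG_f B Nr F t1 t2 e).card : ℝ) := by
        have h3 := Finset.sum_union_inter (s₁ := Dg1) (s₂ := RobS B)
          (f := fun e => ((LMG_f B Nr F t1 t2 e).card : ℝ))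
        have h4 : 0 ≤ ∑ e ∈ Dg1 ∩ RobS B, ((LMG_f B Nr F t1 t2 e).card : ℝ) :=
          Finset.sum_nonneg fun _ _ => Nat.cast_nonneg _
        linarith
      linarith
    have e2 : ∑ e ∈ Dg1, ((LMG_f B Nr F t1 t2 e).card : ℝ) ≤
        n * (D : ℝ) ^ 4 * (60020 * (KK : ℝ) ^ 3 * t1) ^ 2 := (LMG_diag B Nr F t1 t2).trans u2
    have e3 : ∑ e ∈ RobS B, ((LMG_f B Nr F t1 t2 e).card : ℝ) ≤
        ((RobS B).card : ℝ) * ((D : ℝ) ^ 4 * (60020 * (KK : ℝ) ^ 3 * t1) ^ 2) := by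
      calc ∑ e ∈ RobS B, ((LMG_f B Nr F t1 t2 e).card : ℝ)
          ≤ ∑ e ∈ RobS B, (D : ℝ) ^ 4 * (60020 * (KK : ℝ) ^ 3 * t1) ^ 2 :=
            Finset.sum_le_sum fun e _ => u1 e.1 e.2
        _ = _ := by rw [Finset.sum_const, nsmul_eq_mul]
    have e4 : ∑ e ∈ (Dg1 ∪ RobS B)ᶜ, ((LMG_f B Nr F t1 t2 e).card : ℝ) ≤
        (n : ℝ) ^ 2 * (6000 * (12 * (KK : ℝ) * (D : ℝ) ^ 3 * (60020 * (KK : ℝ) ^ 3 * t2) ^ 2)) := by
      have h1 : ((Dg1 ∪ RobS B)ᶜ).card ≤ n ^ 2 := by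
        refine (Finset.card_le_univ _).trans ?_
        rw [Fintype.card_prod, Fintype.card_fin, pow_two]
      have h2 : (((Dg1 ∪ RobS B)ᶜ).card : ℝ) ≤ (n : ℝ) ^ 2 := by exact_mod_cast h1
      calc ∑ e ∈ (Dg1 ∪ RobS B)ᶜ, ((LMG_f B Nr F t1 t2 e).card : ℝ)
          ≤ ∑ e ∈ (Dg1 ∪ RobS B)ᶜ,
            6000 * (12 * (KK : ℝ) * (D : ℝ) ^ 3 * (60020 * (KK : ℝ) ^ 3 * t2) ^ 2) := by
            refine Finset.sum_le_sum fun e he => ?_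
            have he' := Finset.mem_compl.1 he
            exact hb e (fun h => he' (Finset.mem_union_left _ h))
              (fun h => he' (Finset.mem_union_right _ h))
        _ = (((Dg1 ∪ RobS B)ᶜ).card : ℝ) *
            (6000 * (12 * (KK : ℝ) * (D : ℝ) ^ 3 * (60020 * (KK : ℝ) ^ 3 * t2) ^ 2)) := by
            rw [Finset.sum_const, nsmul_eq_mul]
        _ ≤ _ := by gcongr
    linarith
  -- sizes
  have s1 : n * (D : ℝ) ^ 4 * (60020 * (KK : ℝ) ^ 3 * t1) ^ 2 ≤ c * (D : ℝ) ^ 16 / (n : ℝ) ^ 2 / 4 := by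
    have e1 : n * (D : ℝ) ^ 4 * (60020 * (KK : ℝ) ^ 3 * t1) ^ 2 = E * C1 ^ 2 * n ^ 3 / (D : ℝ) ^ 2 := by
      rw [ht1, hE]
      field_simp
    rw [e1, div_div, div_le_div_iff₀ (by positivity) (by positivity)]
    rw [div_mul_eq_mul_div, div_le_iff₀ hc] at k5'
    calc E * C1 ^ 2 * (n : ℝ) ^ 3 * ((n : ℝ) ^ 2 * 4) = 4 * E * C1 ^ 2 * (n : ℝ) ^ 5 := by ring
      _ ≤ (D : ℝ) ^ 18 * c := k5'
      _ = c * (D : ℝ) ^ 16 * (D : ℝ) ^ 2 := by ring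
  have s2 : (n : ℝ) ^ 2 * (6000 * (12 * (KK : ℝ) * (D : ℝ) ^ 3 * (60020 * (KK : ℝ) ^ 3 * t2) ^ 2)) ≤
      c * (D : ℝ) ^ 16 / (n : ℝ) ^ 2 / 4 := by
    have e1 : (n : ℝ) ^ 2 * (6000 * (12 * (KK : ℝ) * (D : ℝ) ^ 3 * (60020 * (KK : ℝ) ^ 3 * t2) ^ 2)) =
        72000 * (KK : ℝ) * E * C2 ^ 2 * n ^ 6 / (D : ℝ) ^ 9 := by
      rw [ht2, hE]
      field_simp
      ring
    rw [e1, div_div, div_le_div_iff₀ (by positivity) (by positivity)]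
    rw [div_mul_eq_mul_div, div_le_iff₀ hc] at k8'
    calc 72000 * (KK : ℝ) * E * C2 ^ 2 * (n : ℝ) ^ 6 * ((n : ℝ) ^ 2 * 4)
        = 288000 * (KK : ℝ) * E * C2 ^ 2 * (n : ℝ) ^ 8 := by ring
      _ ≤ (D : ℝ) ^ 25 * c := k8'
      _ = c * (D : ℝ) ^ 16 * (D : ℝ) ^ 9 := by ring
  have s3 : c * (D : ℝ) ^ 16 / (n : ℝ) ^ 2 / 2 ≤
      ((RobS B).card : ℝ) * ((D : ℝ) ^ 4 * (60020 * (KK : ℝ) ^ 3 * t1) ^ 2) := by linarith
  have e3 : (D : ℝ) ^ 4 * (60020 * (KK : ℝ) ^ 3 * t1) ^ 2 = E * C1 ^ 2 * n ^ 2 / (D : ℝ) ^ 2 := by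
    rw [ht1, hE]
    field_simp
  rw [e3, div_div, mul_div_assoc', div_le_div_iff₀ (by positivity) (by positivity)] at s3
  -- s3 : c D^16 * D^2 <= Rob * (E C1^2 n^2) * (n^2 * 2)
  rw [div_mul_eq_mul_div, div_le_iff₀ hc] at k6'
  have f1 : (A * (n : ℝ) ^ 2) * (2 * E * C1 ^ 2 * (n : ℝ) ^ 4) ≤
      ((D : ℝ) * ((RobS B).card : ℝ)) * (2 * E * C1 ^ 2 * (n : ℝ) ^ 4) := by
    calc (A * (n : ℝ) ^ 2) * (2 * E * C1 ^ 2 * (n : ℝ) ^ 4)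
        = 2 * A * E * C1 ^ 2 * (n : ℝ) ^ 6 := by ring
      _ ≤ (D : ℝ) ^ 19 * c := k6'
      _ = (D : ℝ) * (c * (D : ℝ) ^ 16 * (D : ℝ) ^ 2) := by ring
      _ ≤ (D : ℝ) * (((RobS B).card : ℝ) * (E * C1 ^ 2 * (n : ℝ) ^ 2) * ((n : ℝ) ^ 2 * 2)) := by
          gcongr
      _ = _ := by ring
  exact le_of_mul_le_mul_right f1 (by positivity)

end Pool.Agent.XG
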