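import Pool.Agent.helper14.XG.Spec

/-!
# Row xg:LTP of MP_51d945_co (many light 2-paths)
-/

set_option autoImplicit false

namespace Pool.Agent.XG

open Finset Pool.Agent.XT

theorem LTP_card {n : ℕ} (B : FS n) : B.card = ∑ l, (dL B l).card := by
  rw [← Finset.card_sigma]
  refine Finset.card_nbij' (fun e => ⟨e.2, e.1⟩) (fun e => (e.2, e.1)) ?_ ?_ ?_ ?_
  · intro e he
    refine Finset.mem_coe.2 (Finset.mem_sigma.2 ⟨Finset.mem_univ _, Finset.mem_filter.2
      ⟨Finset.mem_univ _, he⟩⟩)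
  · intro e he
    exact (Finset.mem_filter.1 (Finset.mem_sigma.1 he).2).2
  · intro e _
    rfl
  · intro e _
    rfl

theorem LTP (hBAS : BAS_stmt) (hHVW : HVW_stmt) : LTP_stmt := by
  classical
  intro κ hκ
  obtain ⟨C, hC, hW⟩ := hHVW (κ ^ 2 / 4) (by positivity)
  refine ⟨4 * (501 + C) / κ ^ 2, ?_⟩
  intro n D B Nr F hB hS hD
  obtain ⟨-, -, -, -, -, -, -, hcases⟩ := hBAS n B Nr F hS
  have hn : (0 : ℝ) < n := by exact_mod_cast hB.n0
  have hD0 : (0 : ℝ) < D := by exact_mod_cast hB.d0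
  have hmem : ∀ p l, p ∈ dL B l ↔ (p, l) ∈ B := by
    intro p l
    unfold dL
    rw [Finset.mem_filter]
    exact ⟨fun h => h.2, fun h => ⟨Finset.mem_univ _, h⟩⟩
  set L : Fin n → Finset (Fin n × Fin n) := fun l =>
    (dL B l ×ˢ dL B l).filter (fun e => Lt B Nr e.1 e.2) with hL
  -- one line
  have hline : ∀ l, ((dL B l).card : ℝ) ^ 2 ≤ (501 + C) * ((dL B l).card : ℝ) +
      κ ^ 2 / 4 * ((dL B l).card : ℝ) ^ 2 + ((L l).card : ℝ) := by
    intro l
    set W := dL B l with hWd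
    set E1 := (W ×ˢ W).filter (fun e => e.1 = e.2) with hE1
    set E2 := (W ×ˢ W).filter (fun e => e.2 ≠ e.1 ∧ ¬ Nr e.1 e.2) with hE2
    set E3 := (W ×ˢ W).filter (fun e => Hv B Nr e.1 e.2) with hE3
    have c1 : (E1.card : ℝ) ≤ W.card := by
      have : E1.card ≤ W.card := by
        refine Finset.card_le_card_of_injOn (fun e => e.1) ?_ ?_
        · intro e he
          exact (Finset.mem_product.1 (Finset.mem_filter.1 he).1).1
        · intro e he e' he' h
          have h1 := (Finset.mem_filter.1 he).2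
          have h2 := (Finset.mem_filter.1 he').2
          exact Prod.ext h (by rw [← h1, ← h2]; exact h)
      exact_mod_cast this
    have c2 : (E2.card : ℝ) ≤ 500 * W.card := by
      have h1 : E2 ⊆ W.biUnion (fun x => (Finset.univ.filter
          (fun y => (y, l) ∈ B ∧ y ≠ x ∧ ¬ Nr x y)).image (fun y => (x, y))) := by
        intro e he
        obtain ⟨he1, he2⟩ := Finset.mem_filter.1 he
        obtain ⟨ha, hb⟩ := Finset.mem_product.1 he1
        refine Finset.mem_biUnion.2 ⟨e.1, ha, Finset.mem_image.2 ⟨e.2, Finset.mem_filter.2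
          ⟨Finset.mem_univ _, (hmem _ _).1 hb, he2⟩, rfl⟩⟩
      have h2 : E2.card ≤ W.card * 500 := by
        refine (Finset.card_le_card h1).trans ?_
        refine Finset.card_biUnion_le_card_mul _ _ _ ?_
        intro x hx
        exact Finset.card_image_le.trans (hS.few x l ((hmem _ _).1 hx))
      have h3 : (E2.card : ℝ) ≤ (W.card : ℝ) * 500 := by exact_mod_cast h2
      linarith
    have c3 : (E3.card : ℝ) ≤ κ ^ 2 / 4 * (W.card : ℝ) ^ 2 + C * W.card := by
      refine hW n B Nr F hS W E3 ?_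
      intro e he
      obtain ⟨he1, he2⟩ := Finset.mem_filter.1 he
      obtain ⟨ha, hb⟩ := Finset.mem_product.1 he1
      exact ⟨ha, hb, he2⟩
    have hsub : W ×ˢ W ⊆ ((E1 ∪ E2) ∪ E3) ∪ L l := by
      intro e he
      obtain ⟨ha, hb⟩ := Finset.mem_product.1 he
      by_cases heq : e.1 = e.2
      · exact Finset.mem_union_left _ (Finset.mem_union_left _ (Finset.mem_union_left _
          (Finset.mem_filter.2 ⟨he, heq⟩)))
      · rcases hcases e.1 e.2 l heq ((hmem _ _).1 ha) ((hmem _ _).1 hb) with h | h | h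
        · exact Finset.mem_union_right _ (Finset.mem_filter.2 ⟨he, h⟩)
        · exact Finset.mem_union_left _ (Finset.mem_union_right _ (Finset.mem_filter.2 ⟨he, h⟩))
        · exact Finset.mem_union_left _ (Finset.mem_union_left _ (Finset.mem_union_right _
            (Finset.mem_filter.2 ⟨he, fun e' => heq e'.symm, h⟩)))
    have hc : (W ×ˢ W).card ≤ E1.card + E2.card + E3.card + (L l).card := by
      refine (Finset.card_le_card hsub).trans ?_
      refine (Finset.card_union_le _ _).trans ?_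
      refine Nat.add_le_add_right ?_ _
      refine (Finset.card_union_le _ _).trans ?_
      refine Nat.add_le_add_right ?_ _
      exact Finset.card_union_le _ _
    rw [Finset.card_product] at hc
    have hc' : (W.card : ℝ) * W.card ≤ E1.card + E2.card + E3.card + (L l).card := by
      exact_mod_cast hc
    nlinarith
  -- sums
  have hBsum : (B.card : ℝ) = ∑ l, ((dL B l).card : ℝ) := by
    rw [LTP_card B]
    push_cast
    rfl
  have hBn : (B.card : ℝ) ≤ n * D := by
    rw [hBsum]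
    calc ∑ l : Fin n, ((dL B l).card : ℝ) ≤ ∑ l : Fin n, (D : ℝ) :=
          Finset.sum_le_sum fun l _ => by exact_mod_cast hB.lu l
      _ = n * D := by rw [Finset.sum_const, Finset.card_univ, Fintype.card_fin, nsmul_eq_mul]
  have hsq : ∑ l, ((dL B l).card : ℝ) ^ 2 ≤ n * (D : ℝ) ^ 2 := by
    calc ∑ l : Fin n, ((dL B l).card : ℝ) ^ 2 ≤ ∑ l : Fin n, (D : ℝ) ^ 2 := by
          refine Finset.sum_le_sum fun l _ => ?_
          have : ((dL B l).card : ℝ) ≤ D := by exact_mod_cast hB.lu l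
          exact pow_le_pow_left₀ (Nat.cast_nonneg _) this 2
      _ = n * (D : ℝ) ^ 2 := by
          rw [Finset.sum_const, Finset.card_univ, Fintype.card_fin, nsmul_eq_mul]
  have hcs : κ ^ 2 * n * (D : ℝ) ^ 2 ≤ ∑ l, ((dL B l).card : ℝ) ^ 2 := by
    have h1 : (∑ l : Fin n, ((dL B l).card : ℝ)) ^ 2 ≤
        ((Finset.univ : Finset (Fin n)).card : ℝ) * ∑ l : Fin n, ((dL B l).card : ℝ) ^ 2 :=
      sq_sum_le_card_mul_sum_sq
    rw [← hBsum, Finset.card_univ, Fintype.card_fin] at h1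
    have h2 : (κ * n * D) ^ 2 ≤ (B.card : ℝ) ^ 2 := pow_le_pow_left₀ (by positivity) hB.big 2
    have h3 : (n : ℝ) * (κ ^ 2 * n * (D : ℝ) ^ 2) ≤ n * ∑ l : Fin n, ((dL B l).card : ℝ) ^ 2 := by
      calc (n : ℝ) * (κ ^ 2 * n * (D : ℝ) ^ 2) = (κ * n * D) ^ 2 := by ring
        _ ≤ _ := h2.trans h1
    exact le_of_mul_le_mul_left h3 hn
  have hLsum : ∑ l, ((L l).card : ℝ) ≤ ((Finset.univ.filter
    (fun z : Fin n × Fin n × Fin n => (z.1, z.2.1) ∈ B ∧ (z.2.2, z.2.1) ∈ B ∧
      Lt B Nr z.1 z.2.2)).card : ℝ) := by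
    have h1 : (Finset.univ.sigma L).card ≤ (Finset.univ.filter
      (fun z : Fin n × Fin n × Fin n => (z.1, z.2.1) ∈ B ∧ (z.2.2, z.2.1) ∈ B ∧
        Lt B Nr z.1 z.2.2)).card := by
      refine Finset.card_le_card_of_injOn (fun z => (z.2.1, z.1, z.2.2)) ?_ ?_
      · intro z hz
        obtain ⟨-, h2⟩ := Finset.mem_sigma.1 hz
        obtain ⟨h3, h4⟩ := Finset.mem_filter.1 h2
        obtain ⟨h5, h6⟩ := Finset.mem_product.1 h3
        exact Finset.mem_coe.2 (Finset.mem_filter.2 ⟨Finset.mem_univ _, (hmem _ _).1 h5,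
          (hmem _ _).1 h6, h4⟩)
      · rintro ⟨l, x, y⟩ _ ⟨l', x', y'⟩ _ h
        simp only [Prod.mk.injEq] at h
        obtain ⟨rfl, rfl, rfl⟩ := h
        rfl
    rw [Finset.card_sigma] at h1
    exact_mod_cast h1
  have hall := Finset.sum_le_sum (fun l (_ : l ∈ (Finset.univ : Finset (Fin n))) => hline l)
  rw [Finset.sum_add_distrib, Finset.sum_add_distrib, ← Finset.mul_sum, ← Finset.mul_sum,
    ← hBsum] at hall
  have hDbig : (501 + C) * (n * D) ≤ κ ^ 2 / 4 * n * (D : ℝ) ^ 2 := by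
    rw [div_le_iff₀ (by positivity)] at hD
    have h1 : 501 + C ≤ κ ^ 2 / 4 * D := by linarith
    calc (501 + C) * (n * D) ≤ (κ ^ 2 / 4 * D) * (n * D) := by gcongr
      _ = _ := by ring
  have h5 : (501 + C) * (B.card : ℝ) ≤ (501 + C) * (n * D) := by
    have : 0 ≤ 501 + C := by linarith
    gcongr
  have h6 : κ ^ 2 / 4 * ∑ l, ((dL B l).card : ℝ) ^ 2 ≤ κ ^ 2 / 4 * (n * (D : ℝ) ^ 2) := by
    gcongr
  nlinarith

end Pool.Agent.XG
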