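import Pool.Agent.helper14.XG.Spec

/-!
# Row xg:STL of MP_51d945_co (the star lemma)
-/

set_option autoImplicit false

namespace Pool.Agent.XG

open Finset Pool.Agent.XT

theorem STL : STL_stmt := by
  classical
  intro n B Nr F hS x Y s hx hY hd
  by_contra hcon
  have hcard : 6003 ≤ Y.card := by omega
  obtain ⟨y3, hy3⟩ : Y.Nonempty := Finset.card_pos.1 (by omega)
  set G := F (x 2) y3 with hG
  have hGc : G.card ≤ 6000 := hS.fc _ _
  set H := (Y.erase y3).filter (fun y => Sum.inl y ∈ G ∨ ∃ i, (Sum.inr (s y i) : VV n) ∈ G) with hH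
  have hHc : H.card ≤ 6000 := by
    have hex : ∀ y : Fin n, y ∈ H → ∃ g : VV n, g ∈ G ∧ (g = Sum.inl y ∨ ∃ i, g = Sum.inr (s y i)) := by
      intro y hy
      rcases (Finset.mem_filter.1 hy).2 with h | ⟨i, h⟩
      · exact ⟨_, h, Or.inl rfl⟩
      · exact ⟨_, h, Or.inr ⟨i, rfl⟩⟩
    choose! f hf using hex
    refine le_trans (Finset.card_le_card_of_injOn f (fun y hy => (hf y hy).1) ?_) hGc
    intro y hy y' hy' hyy
    have hyY : y ∈ Y := Finset.mem_of_mem_erase (Finset.mem_filter.1 hy).1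
    have hyY' : y' ∈ Y := Finset.mem_of_mem_erase (Finset.mem_filter.1 hy').1
    rcases (hf y hy).2 with h | ⟨i, h⟩ <;> rcases (hf y' hy').2 with h' | ⟨j, h'⟩
    · rw [h, h'] at hyy
      exact Sum.inl_injective hyy
    · rw [h, h'] at hyy
      exact absurd hyy Sum.inl_ne_inr
    · rw [h, h'] at hyy
      exact absurd hyy Sum.inr_ne_inl
    · rw [h, h'] at hyy
      by_contra hne
      exact hd y hyY y' hyY' hne i j (Sum.inr_injective hyy)
  have hleft : 1 < ((Y.erase y3) \ H).card := by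
    have h1 := Finset.le_card_sdiff H (Y.erase y3)
    have h2 := Finset.card_erase_of_mem hy3
    omega
  obtain ⟨y1, hy1, y2, hy2, h12⟩ := Finset.one_lt_card.1 hleft
  obtain ⟨hy1e, hy1H⟩ := Finset.mem_sdiff.1 hy1
  obtain ⟨hy2e, hy2H⟩ := Finset.mem_sdiff.1 hy2
  have hy1Y := Finset.mem_of_mem_erase hy1e
  have hy2Y := Finset.mem_of_mem_erase hy2e
  have h13 : y1 ≠ y3 := (Finset.mem_erase.1 hy1e).1
  have h23 : y2 ≠ y3 := (Finset.mem_erase.1 hy2e).1
  have n1 : Sum.inl y1 ∉ G ∧ ∀ i, (Sum.inr (s y1 i) : VV n) ∉ G := by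
    constructor
    · intro h
      exact hy1H (Finset.mem_filter.2 ⟨hy1e, Or.inl h⟩)
    · intro i h
      exact hy1H (Finset.mem_filter.2 ⟨hy1e, Or.inr ⟨i, h⟩⟩)
  have n2 : Sum.inl y2 ∉ G ∧ ∀ i, (Sum.inr (s y2 i) : VV n) ∉ G := by
    constructor
    · intro h
      exact hy2H (Finset.mem_filter.2 ⟨hy2e, Or.inl h⟩)
    · intro i h
      exact hy2H (Finset.mem_filter.2 ⟨hy2e, Or.inr ⟨i, h⟩⟩)
  set u : Fin 3 → Fin n := ![y1, y2, y3] with hu
  have hu0 : u 0 = y1 := rfl
  have hu1 : u 1 = y2 := rfl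
  have hu2 : u 2 = y3 := rfl
  have huY : ∀ i, u i ∈ Y := by
    intro i
    fin_cases i
    · exact hy1Y
    · exact hy2Y
    · exact hy3
  have huinj : Function.Injective u := by
    intro i j hij
    fin_cases i <;> fin_cases j <;> simp [hu] at hij ⊢
    · exact absurd hij h12
    · exact absurd hij h13
    · exact absurd hij.symm h12
    · exact absurd hij h23
    · exact absurd hij.symm h13
    · exact absurd hij.symm h23
  have hIsG : IsG B u x (fun p : P8 => s (u p.1.1) p.1.2) := by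
    refine ⟨?_, ?_, ?_, ?_⟩
    · rintro (i | i) (j | j) hij
      · exact congrArg Sum.inl (huinj hij)
      · exact absurd hij.symm ((hY _ (huY i)).1 j)
      · exact absurd hij ((hY _ (huY j)).1 i)
      · exact congrArg Sum.inr (hx hij)
    · rintro ⟨⟨i, j⟩, hp⟩ ⟨⟨i', j'⟩, hp'⟩ h
      simp only at h
      by_cases hii : i = i'
      · subst hii
        have := (hY _ (huY i)).2.2.1 h
        subst this
        rfl
      · exact absurd h (hd _ (huY i) _ (huY i') (fun e => hii (huinj e)) _ _)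
    · intro p
      exact ((hY _ (huY p.1.1)).2.2.2.1 p.1.2).2
    · intro p
      exact ((hY _ (huY p.1.1)).2.2.2.1 p.1.2).1
  have hgad : Gad B (x 2) y3 (inn u x (fun p : P8 => s (u p.1.1) p.1.2)) :=
    ⟨u, x, _, hIsG, rfl, rfl, rfl⟩
  refine hS.hit (x 2) y3 _ (hY y3 hy3).2.1 hgad ?_
  rw [Finset.disjoint_left]
  intro v hv hvG
  have hcl := (hY y3 hy3).2.2.2.2
  unfold inn at hv
  rcases Finset.mem_union.1 hv with hv | hv
  · simp only [Finset.mem_insert, Finset.mem_singleton] at hv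
    rcases hv with rfl | rfl | rfl | rfl
    · exact n1.1 hvG
    · exact n2.1 hvG
    · exact (hcl 0 (by decide)).1 hvG
    · exact (hcl 1 (by decide)).1 hvG
  · obtain ⟨p, -, rfl⟩ := Finset.mem_image.1 hv
    obtain ⟨⟨i, j⟩, hp⟩ := p
    have hi : i = 0 ∨ i = 1 ∨ i = 2 := by fin_cases i <;> simp
    rcases hi with rfl | rfl | rfl
    · exact n1.2 j hvG
    · exact n2.2 j hvG
    · have hj : j ≠ 2 := fun e => hp (by rw [e])
      exact (hcl j hj).2 hvG

end Pool.Agent.XG
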